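import Pool.Agent.H6.FIB.TargetsP
import Pool.Agent.H99.FI.ASK
import Pool.Agent.H40.FI.SQ

/-!
# PSK: the kernel of the action on a normal subgroup isomorphic to the socle
-/

set_option autoImplicit false

open FI AMc AMt

namespace Pool.Agent.H77.FIB

open Pool.Agent.H99.FI (ask_comap ask_normal)

theorem psk_S {A : Type} [Group A] {S : Subgroup A} (h : Al A S) : S ≠ ⊥ := by
  rintro rfl
  obtain ⟨a, ha, b, hb, hab⟩ := h.nab
  rw [Subgroup.mem_bot] at ha hb
  subst ha; subst hb
  exact hab rfl

theorem pf_PSK (h1 : T_SOL) (h2 : T_ALS) : T_PSK := by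
  intro X A _ _ _ _ S L hLn γ hX hAl hsurj hinf hmap
  have hsq : T_SQ := Pool.Agent.H40.FI.pf_SQ h1
  have hS := psk_S hAl
  have hinj : Function.Injective ((QuotientGroup.mk' L).subgroupMap γ.ker) := by
    rw [injective_iff_map_eq_one]
    intro n hn
    have h3 : QuotientGroup.mk' L (n : X) = 1 :=
      congrArg (fun z : (γ.ker.map (QuotientGroup.mk' L)) => (z : X ⧸ L)) hn
    have h4 : (n : X) ∈ L := by
      rwa [← MonoidHom.mem_ker, QuotientGroup.ker_mk'] at h3
    have h5 : (n : X) ∈ L ⊓ γ.ker := ⟨h4, n.2⟩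
    rw [hinf, Subgroup.mem_bot] at h5
    exact Subtype.ext h5
  have hbij : Function.Bijective ((QuotientGroup.mk' L).subgroupMap γ.ker) :=
    ⟨hinj, (QuotientGroup.mk' L).subgroupMap_surjective γ.ker⟩
  have s1 : sol γ.ker = ⊥ := ask_normal h1 hsq γ.ker hX
  have s2 : sol (γ.ker.map (QuotientGroup.mk' L)) = ⊥ := by
    have hc := ask_comap hsq ((QuotientGroup.mk' L).subgroupMap γ.ker) hbij
    rw [s1] at hc
    rw [eq_bot_iff]
    intro b hb
    obtain ⟨a, rfl⟩ := hbij.2 b
    have h3 : a ∈ (sol (γ.ker.map (QuotientGroup.mk' L))).comap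
        ((QuotientGroup.mk' L).subgroupMap γ.ker) := hb
    rw [hc, Subgroup.mem_bot] at h3
    rw [h3, map_one]
    exact Subgroup.one_mem _
  have s3 : Nat.card (γ.ker.map (QuotientGroup.mk' L)) = Nat.card γ.ker :=
    (Nat.card_congr (Equiv.ofBijective _ hbij)).symm
  have hLb : L ≠ ⊥ := by
    intro h
    subst h
    rw [Subgroup.map_bot] at hmap
    exact hS hmap.symm
  have hkt : γ.ker ≠ ⊤ := by
    intro h
    have h3 : L.map γ = ⊥ := by
      rw [eq_bot_iff]
      rintro _ ⟨x, _, rfl⟩
      have hx : x ∈ γ.ker := by rw [h]; exact Subgroup.mem_top x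
      rw [Subgroup.mem_bot]
      exact hx
    rw [h3] at hmap
    exact hS hmap.symm
  refine ⟨s1, s2, s3, ?_, ?_, ?_, ?_⟩
  · refine lt_of_le_of_ne (Subgroup.card_le_card_group _) fun h => hkt ?_
    exact Subgroup.eq_top_of_card_eq _ h
  · have h3 := Subgroup.card_eq_card_quotient_mul_card_subgroup L
    have h4 : 1 < Nat.card L := by
      rw [Subgroup.one_lt_card_iff_ne_bot]
      exact hLb
    have h5 : 0 < Nat.card (X ⧸ L) := Nat.card_pos
    rw [h3]
    exact lt_mul_of_one_lt_right h5 h4
  · have hSn : (γ.ker.map (QuotientGroup.mk' L)).Normal :=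
      Subgroup.Normal.map inferInstance _ (QuotientGroup.mk'_surjective L)
    have hQ : (sol (X ⧸ L)).subgroupOf (γ.ker.map (QuotientGroup.mk' L)) = ⊥ := by
      have hs : Group.IsSolvable (sol (X ⧸ L)) := (h1 (X ⧸ L)).1
      have hsolv : Group.IsSolvable
          ((sol (X ⧸ L)).subgroupOf (γ.ker.map (QuotientGroup.mk' L))) := by
        let g : ((sol (X ⧸ L)).subgroupOf (γ.ker.map (QuotientGroup.mk' L))) →* sol (X ⧸ L) :=
          { toFun := fun x => ⟨((x : γ.ker.map (QuotientGroup.mk' L)) : X ⧸ L), x.2⟩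
            map_one' := rfl
            map_mul' := fun _ _ => rfl }
        have hg : Function.Injective g := by
          intro x y h
          have h' : ((x : γ.ker.map (QuotientGroup.mk' L)) : X ⧸ L) =
            ((y : γ.ker.map (QuotientGroup.mk' L)) : X ⧸ L) :=
              congrArg (fun z : sol (X ⧸ L) => (z : X ⧸ L)) h
          exact Subtype.ext (Subtype.ext h')
        exact Group.isSolvable_of_isSolvable_injective hg
      have hle := (h1 (γ.ker.map (QuotientGroup.mk' L))).2.1 _
        (Subgroup.Normal.subgroupOf inferInstance _) hsolv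
      rw [s2, le_bot_iff] at hle
      exact hle
    have h3 : (sol (X ⧸ L)).relIndex (γ.ker.map (QuotientGroup.mk' L)) = Nat.card γ.ker := by
      unfold Subgroup.relIndex
      rw [hQ, Subgroup.index_bot, s3]
    rw [← h3]
    apply Nat.le_of_dvd (Nat.pos_of_ne_zero Subgroup.index_ne_zero_of_finite)
    exact Subgroup.relIndex_dvd_index_of_normal _ _
  · have h3 := Subgroup.card_eq_card_quotient_mul_card_subgroup γ.ker
    have h4 : Nat.card (X ⧸ γ.ker) = Nat.card A :=
      Nat.card_congr (QuotientGroup.quotientKerEquivOfSurjective γ hsurj).toEquiv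
    rw [h4] at h3
    rw [h3, mul_comm]

end Pool.Agent.H77.FIB
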